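import Mathlib

/-!
# Infinite ascent on `X ^ 3 + Y ^ 3 = D`

If `D > 2` has no cube divisor and `X ^ 3 + Y ^ 3 = D` has a rational solution, then the curve
`y ^ 2 + D y = x ^ 3` has infinitely many rational points.
-/

set_option autoImplicit false

namespace Pool.Agent.Q243.CU

/-- the primitive solutions -/
def Sol (D : ℕ) (a b : ℤ) (c : ℕ) : Prop := 0 < c ∧ IsCoprime a b ∧ a ^ 3 + b ^ 3 = D * (c : ℤ) ^ 3

lemma small {a b : ℤ} (hab : a ≠ b) (hs : 3 ≤ a ^ 3 + b ^ 3) : 3 < |a ^ 3 - b ^ 3| := by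
  by_contra h
  push Not at h
  have e : a ^ 3 - b ^ 3 = (a - b) * (a ^ 2 + a * b + b ^ 2) := by ring
  have h0 : 0 ≤ a ^ 2 + a * b + b ^ 2 := by nlinarith [sq_nonneg (a + b), sq_nonneg a, sq_nonneg b]
  have h1 : 1 ≤ |a - b| := Int.one_le_abs (sub_ne_zero.2 hab)
  rw [e, abs_mul, abs_of_nonneg h0] at h
  have h2 : a ^ 2 + a * b + b ^ 2 ≤ 3 := by nlinarith
  have ha : a ^ 2 ≤ 4 := by nlinarith [sq_nonneg (a + 2 * b)]
  have hb : b ^ 2 ≤ 4 := by nlinarith [sq_nonneg (b + 2 * a)]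
  have ha1 : -2 ≤ a := by nlinarith
  have ha2 : a ≤ 2 := by nlinarith
  have hb1 : -2 ≤ b := by nlinarith
  have hb2 : b ≤ 2 := by nlinarith
  interval_cases a <;> interval_cases b <;> simp_all

lemma gcd_dvd {a b : ℤ} (h : IsCoprime a b) :
    (Int.gcd (a * (a ^ 3 + 2 * b ^ 3)) (-(b * (2 * a ^ 3 + b ^ 3))) : ℤ) ∣ 3 := by
  set A := a * (a ^ 3 + 2 * b ^ 3)
  set B := -(b * (2 * a ^ 3 + b ^ 3))
  set g : ℤ := (Int.gcd A B : ℤ) with hg
  have gA : g ∣ A := Int.gcd_dvd_left _ _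
  have gB : g ∣ B := Int.gcd_dvd_right _ _
  have h1 : IsCoprime a (2 * a ^ 3 + b ^ 3) := by
    have : IsCoprime a (b ^ 3 + a * (2 * a ^ 2)) := (h.pow_right (n := 3)).add_mul_left_right _
    convert this using 1
    ring
  have h2 : IsCoprime b (a ^ 3 + 2 * b ^ 3) := by
    have : IsCoprime b (a ^ 3 + b * (2 * b ^ 2)) := (h.symm.pow_right (n := 3)).add_mul_left_right _
    convert this using 1
    ring
  have h3 : IsCoprime a B := (h.mul_right h1).neg_right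
  have h4 : IsCoprime b A := h.symm.mul_right h2
  have g1 : IsCoprime g a := (h3.of_isCoprime_of_dvd_right gB).symm
  have g2 : IsCoprime g b := (h4.of_isCoprime_of_dvd_right gA).symm
  have d1 : g ∣ a ^ 3 + 2 * b ^ 3 := g1.dvd_of_dvd_mul_left gA
  have d2 : g ∣ 2 * a ^ 3 + b ^ 3 := g2.dvd_of_dvd_mul_left ((dvd_neg).1 gB)
  have d3 : g ∣ 3 * b ^ 3 := by
    have := dvd_sub (Dvd.dvd.mul_left d1 2) d2
    have e : 2 * (a ^ 3 + 2 * b ^ 3) - (2 * a ^ 3 + b ^ 3) = 3 * b ^ 3 := by ring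
    rwa [e] at this
  exact (g2.pow_right (n := 3)).dvd_of_dvd_mul_right d3

lemma ascend {D : ℕ} (hD : 2 < D) (hcf : ∀ p : ℕ, p.Prime → ¬ p ^ 3 ∣ D) {a b : ℤ} {c : ℕ}
    (h : Sol D a b c) : ∃ (a' b' : ℤ) (c' : ℕ), c < c' ∧ Sol D a' b' c' := by
  obtain ⟨hc, hab, he⟩ := h
  have hc1 : (1 : ℤ) ≤ (c : ℤ) ^ 3 := by
    have : (1 : ℤ) ≤ c := by exact_mod_cast hc
    exact one_le_pow₀ this
  have hs : 3 ≤ a ^ 3 + b ^ 3 := by
    have : (3 : ℤ) ≤ D := by exact_mod_cast hD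
    rw [he]
    nlinarith
  have hne : a ≠ b := by
    rintro rfl
    have h1 : IsUnit a := isCoprime_self.1 hab
    rcases Int.isUnit_iff.1 h1 with rfl | rfl <;> norm_num at hs
  have ht := small hne hs
  set t := a ^ 3 - b ^ 3 with htd
  set A := a * (a ^ 3 + 2 * b ^ 3) with hA
  set B := -(b * (2 * a ^ 3 + b ^ 3)) with hB
  have hAB : A ^ 3 + B ^ 3 = D * (c * t) ^ 3 := by
    have : A ^ 3 + B ^ 3 = (a ^ 3 + b ^ 3) * t ^ 3 := by
      rw [hA, hB, htd]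
      ring
    rw [this, he]
    ring
  have hg3 := gcd_dvd hab
  rw [← hA, ← hB] at hg3
  set g : ℕ := Int.gcd A B with hg
  have hg3' : g ∣ 3 := by exact_mod_cast hg3
  have hgpos : 0 < g := Nat.pos_of_dvd_of_pos hg3' (by norm_num)
  have hg13 : g = 1 ∨ g = 3 := (Nat.dvd_prime Nat.prime_three).1 hg3'
  obtain ⟨A', hA'⟩ : (g : ℤ) ∣ A := Int.gcd_dvd_left _ _
  obtain ⟨B', hB'⟩ : (g : ℤ) ∣ B := Int.gcd_dvd_right _ _
  have hcop : IsCoprime A' B' := by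
    rw [Int.isCoprime_iff_gcd_eq_one]
    have h1 : Int.gcd A B = g * Int.gcd A' B' := by
      rw [hA', hB', Int.gcd_mul_left]
      simp
    have h2 : g * 1 = g * Int.gcd A' B' := by rw [mul_one]; exact hg.symm ▸ h1
    exact (Nat.eq_of_mul_eq_mul_left hgpos h2).symm
  have hgc : (g : ℤ) ∣ c * t := by
    rcases hg13 with h1 | h1
    · rw [h1]
      simp
    · have h2 : ((3 : ℕ) : ℤ) ^ 3 ∣ D * (c * t) ^ 3 := by
        rw [← hAB, hA', hB', h1]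
        exact ⟨A' ^ 3 + B' ^ 3, by ring⟩
      by_contra h3
      rw [h1] at h3
      have h4 : IsCoprime ((3 : ℕ) : ℤ) (c * t) :=
        (Int.prime_iff_natAbs_prime.2 (by norm_num : ((3 : ℕ) : ℤ).natAbs.Prime)).coprime_iff_not_dvd.2
          h3
      have h5 : ((3 : ℕ) : ℤ) ^ 3 ∣ D := (h4.pow (m := 3) (n := 3)).dvd_of_dvd_mul_right h2
      exact hcf 3 Nat.prime_three (by exact_mod_cast h5)
  obtain ⟨u, hu⟩ := hgc
  have hg0 : (g : ℤ) ≠ 0 := by exact_mod_cast hgpos.ne'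
  have h6 : A' ^ 3 + B' ^ 3 = D * u ^ 3 := by
    have h7 : (g : ℤ) ^ 3 * (A' ^ 3 + B' ^ 3) = (g : ℤ) ^ 3 * (D * u ^ 3) := by
      have : (g : ℤ) ^ 3 * (A' ^ 3 + B' ^ 3) = (g * A') ^ 3 + (g * B') ^ 3 := by ring
      rw [this, ← hA', ← hB', hAB, hu]
      ring
    exact mul_left_cancel₀ (pow_ne_zero 3 hg0) h7
  have h8 : (c : ℤ) < |u| := by
    have h9 : (g : ℤ) * |u| = c * |t| := by
      have : |(c : ℤ) * t| = |(g : ℤ) * u| := by rw [hu]
      rw [abs_mul, abs_mul, abs_of_nonneg (by positivity : (0 : ℤ) ≤ c),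
        abs_of_nonneg (by positivity : (0 : ℤ) ≤ g)] at this
      exact this.symm
    have h10 : (g : ℤ) ≤ 3 := by exact_mod_cast Nat.le_of_dvd (by norm_num) hg3'
    have h11 : (0 : ℤ) < c := by exact_mod_cast hc
    have h12 : 0 ≤ |u| := abs_nonneg u
    nlinarith
  rcases le_or_gt 0 u with hu0 | hu0
  · refine ⟨A', B', u.natAbs, ?_, ?_, hcop, ?_⟩
    · rw [abs_of_nonneg hu0] at h8
      omega
    · rw [abs_of_nonneg hu0] at h8
      omega
    · rw [h6]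
      congr 2
      omega
  · refine ⟨-A', -B', u.natAbs, ?_, ?_, hcop.neg_neg, ?_⟩
    · rw [abs_of_neg hu0] at h8
      omega
    · rw [abs_of_neg hu0] at h8
      omega
    · have : ((u.natAbs : ℕ) : ℤ) = -u := by omega
      rw [this]
      linear_combination -h6

lemma exists_sol {D : ℕ} (hcf : ∀ p : ℕ, p.Prime → ¬ p ^ 3 ∣ D) {X Y : ℚ}
    (h : X ^ 3 + Y ^ 3 = D) : ∃ (a b : ℤ) (c : ℕ), Sol D a b c := by
  have hex : ∃ c : ℕ, 0 < c ∧ ∃ a b : ℤ, a ^ 3 + b ^ 3 = D * (c : ℤ) ^ 3 := by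
    refine ⟨X.den * Y.den, Nat.mul_pos X.pos Y.pos, X.num * Y.den, Y.num * X.den, ?_⟩
    have hx : (X.den : ℚ) ≠ 0 := by exact_mod_cast X.den_nz
    have hy : (Y.den : ℚ) ≠ 0 := by exact_mod_cast Y.den_nz
    have ex : (X.num : ℚ) = X * X.den := (Rat.mul_den_eq_num X).symm
    have ey : (Y.num : ℚ) = Y * Y.den := (Rat.mul_den_eq_num Y).symm
    have : ((X.num : ℚ) * Y.den) ^ 3 + (Y.num * X.den) ^ 3 = D * ((X.den * Y.den : ℕ) : ℚ) ^ 3 := by
      rw [ex, ey, ← h]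
      push_cast
      ring
    exact_mod_cast this
  classical
  obtain ⟨hc, a, b, he⟩ := Nat.find_spec hex
  refine ⟨a, b, Nat.find hex, hc, ?_, he⟩
  rw [Int.isCoprime_iff_gcd_eq_one]
  by_contra hg
  obtain ⟨p, hp, hpg⟩ := Nat.exists_prime_and_dvd hg
  obtain ⟨a', ha'⟩ : (p : ℤ) ∣ a := (Int.natCast_dvd_natCast.2 hpg).trans (Int.gcd_dvd_left _ _)
  obtain ⟨b', hb'⟩ : (p : ℤ) ∣ b := (Int.natCast_dvd_natCast.2 hpg).trans (Int.gcd_dvd_right _ _)
  have h3 : (p : ℤ) ^ 3 ∣ D * ((Nat.find hex : ℕ) : ℤ) ^ 3 := by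
    rw [← he, ha', hb']
    exact ⟨a' ^ 3 + b' ^ 3, by ring⟩
  have h3' : p ^ 3 ∣ D * (Nat.find hex) ^ 3 := by exact_mod_cast h3
  have hpc : p ∣ Nat.find hex := by
    by_contra hn
    exact hcf p hp ((((Nat.Prime.coprime_iff_not_dvd hp).2 hn).pow 3 3).dvd_of_dvd_mul_right h3')
  obtain ⟨m, hm⟩ := hpc
  have hm0 : 0 < m := by
    rcases Nat.eq_zero_or_pos m with h0 | h0
    · rw [h0, mul_zero] at hm
      omega
    · exact h0
  have hlt : m < Nat.find hex := by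
    rw [hm]
    nlinarith [hp.two_le]
  refine Nat.find_min hex hlt ⟨hm0, a', b', ?_⟩
  have hp0 : (p : ℤ) ^ 3 ≠ 0 := pow_ne_zero 3 (by exact_mod_cast hp.ne_zero)
  refine mul_left_cancel₀ hp0 ?_
  have e1 : (p : ℤ) ^ 3 * (a' ^ 3 + b' ^ 3) = a ^ 3 + b ^ 3 := by rw [ha', hb']; ring
  rw [e1, he, hm]
  push_cast
  ring

/-- the curve `y ^ 2 + D y = x ^ 3` -/
def E (D : ℕ) : WeierstrassCurve ℚ := { a₁ := 0, a₂ := 0, a₃ := (D : ℚ), a₄ := 0, a₆ := 0 }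

lemma nonsing {D : ℕ} (hD : D ≠ 0) {x y : ℚ} (h : y ^ 2 + D * y = x ^ 3) :
    (E D).toAffine.Nonsingular x y := by
  have hD' : (D : ℚ) ≠ 0 := by exact_mod_cast hD
  rw [WeierstrassCurve.Affine.nonsingular_iff]
  have e1 : (E D).toAffine.Equation x y := by
    rw [WeierstrassCurve.Affine.equation_iff]
    simp only [E, zero_mul, add_zero]
    exact h
  refine ⟨e1, ?_⟩
  simp only [E, zero_mul, mul_zero, add_zero]
  by_contra hc
  push Not at hc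
  obtain ⟨h1, h2⟩ := hc
  have hx : x = 0 := by
    have : 3 * x ^ 2 = 0 := h1.symm
    have := (mul_eq_zero.1 this).resolve_left (by norm_num)
    exact pow_eq_zero_iff (two_ne_zero) |>.1 this
  rw [hx] at h
  have h3 : y * (y + D) = 0 := by linear_combination h
  rcases mul_eq_zero.1 h3 with h4 | h4
  · rw [h4] at h2
    apply hD'
    linarith
  · apply hD'
    linarith

/-- **Theorem.** -/
theorem no_solution {D : ℕ} (hD : 2 < D) (hcf : ∀ p : ℕ, p.Prime → ¬ p ^ 3 ∣ D)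
    (hfin : Finite (E D).toAffine.Point) (X Y : ℚ) : X ^ 3 + Y ^ 3 ≠ D := by
  intro h
  obtain ⟨a, b, c, hs⟩ := exists_sol hcf h
  let S : Set ℕ := {c | ∃ a b : ℤ, Sol D a b c}
  have hS : S.Infinite := by
    intro hSf
    obtain ⟨m, ⟨a₁, b₁, hm⟩, hmax⟩ := Set.exists_max_image S id hSf ⟨c, a, b, hs⟩
    obtain ⟨a', b', c', hlt, hs'⟩ := ascend hD hcf hm
    have := hmax c' ⟨a', b', hs'⟩
    simp only [id] at this
    omega
  have hD0 : D ≠ 0 := by omega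
  choose! fa fb hf using fun (c : ℕ) (hc : c ∈ S) => hc
  have hns : ∀ c : S, (E D).toAffine.Nonsingular (-((fa c.1 : ℚ) / c.1) * ((fb c.1 : ℚ) / c.1))
      (-((fa c.1 : ℚ) / c.1) ^ 3) := by
    intro c
    apply nonsing hD0
    obtain ⟨h1, -, h3⟩ := hf c.1 c.2
    have hc0 : ((c.1 : ℕ) : ℚ) ≠ 0 := by exact_mod_cast h1.ne'
    have h4 : (fa c.1 : ℚ) ^ 3 + (fb c.1 : ℚ) ^ 3 = D * (c.1 : ℚ) ^ 3 := by exact_mod_cast h3
    have h5 : ((fa c.1 : ℚ) / c.1) ^ 3 + ((fb c.1 : ℚ) / c.1) ^ 3 = D := by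
      rw [div_pow, div_pow, ← add_div, h4]
      field_simp
    rw [← h5]
    ring
  let F : S → (E D).toAffine.Point := fun c => WeierstrassCurve.Affine.Point.some _ _ (hns c)
  have hinj : Function.Injective F := by
    intro c₁ c₂ he
    have h1 := (WeierstrassCurve.Affine.Point.some.inj he).2
    have h2 : ((fa c₁.1 : ℚ) / c₁.1) ^ 3 = ((fa c₂.1 : ℚ) / c₂.1) ^ 3 := neg_injective h1
    have h3 : (fa c₁.1 : ℚ) / c₁.1 = (fa c₂.1 : ℚ) / c₂.1 :=
      (Odd.strictMono_pow (R := ℚ) (n := 3) (by decide)).injective h2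
    have hco : ∀ c : S, Nat.Coprime (fa c.1).natAbs (c.1 : ℤ).natAbs := by
      intro c
      obtain ⟨h1, h2, h3⟩ := hf c.1 c.2
      rw [← Int.isCoprime_iff_nat_coprime]
      have h4 : IsCoprime (fa c.1) (D * ((c.1 : ℕ) : ℤ) ^ 3) := by
        rw [← h3]
        have h5 := (h2.pow_right (n := 3)).add_mul_left_right (fa c.1 ^ 2)
        have e : fb c.1 ^ 3 + fa c.1 * fa c.1 ^ 2 = fa c.1 ^ 3 + fb c.1 ^ 3 := by ring
        rwa [e] at h5
      exact (IsCoprime.pow_right_iff (by norm_num : 0 < 3)).1 h4.of_mul_right_right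
    have hpos : ∀ c : S, (0 : ℤ) < (c.1 : ℤ) := fun c => by exact_mod_cast (hf c.1 c.2).1
    have h4 := Rat.div_int_inj (hpos c₁) (hpos c₂) (hco c₁) (hco c₂) (by exact_mod_cast h3)
    exact Subtype.ext (by exact_mod_cast h4.2)
  have : Finite S := Finite.of_injective F hinj
  exact hS this

end Pool.Agent.Q243.CU
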