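import Mathlib

/-!
# A primitive recursive test

`Test D`: `D` is in the class of the project CT (cube-free, prime to 3, not `±1` modulo 9, exactly one
prime factor `2` modulo 3) and does not split.
-/

set_option autoImplicit false

namespace Pool.Agent.Q243.CU

open Primrec

/-- a number is prime -/
def Pr (p : ℕ) : Prop := 1 < p ∧ ∀ m < p, 1 < m → p % m ≠ 0

lemma pr_iff (p : ℕ) : Pr p ↔ p.Prime := by
  unfold Pr
  rw [Nat.prime_def_lt]
  constructor
  · rintro ⟨h1, h2⟩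
    refine ⟨h1, fun m hm hd => ?_⟩
    by_contra hne
    have hm0 : m ≠ 0 := by
      rintro rfl
      have := Nat.eq_zero_of_zero_dvd hd
      omega
    exact h2 m hm (by omega) (Nat.mod_eq_zero_of_dvd hd)
  · rintro ⟨h1, h2⟩
    refine ⟨h1, fun m hm h1m hmod => ?_⟩
    have := h2 m hm (Nat.dvd_of_mod_eq_zero hmod)
    omega

section prim
variable {α : Type} [Primcodable α]

lemma all_lt {f : α → ℕ} {p : α → ℕ → Prop} (hf : Primrec f)
    (hp : PrimrecPred fun q : α × ℕ => p q.1 q.2) : PrimrecPred fun a => ∀ x < f a, p a x := by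
  have h1 : PrimrecRel fun (x : ℕ) (a : α) => p a x :=
    hp.comp (Primrec.pair Primrec.snd Primrec.fst)
  have h2 := h1.forall_mem_list.comp (Primrec.list_range.comp hf) (Primrec.id (α := α))
  exact h2.of_eq fun a => by simp

lemma ex_lt {f : α → ℕ} {p : α → ℕ → Prop} (hf : Primrec f)
    (hp : PrimrecPred fun q : α × ℕ => p q.1 q.2) : PrimrecPred fun a => ∃ x < f a, p a x := by
  have h1 : PrimrecRel fun (x : ℕ) (a : α) => p a x :=
    hp.comp (Primrec.pair Primrec.snd Primrec.fst)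
  have h2 := h1.exists_mem_list.comp (Primrec.list_range.comp hf) (Primrec.id (α := α))
  exact h2.of_eq fun a => by simp

lemma imp {p q : α → Prop} (hp : PrimrecPred p) (hq : PrimrecPred q) :
    PrimrecPred fun a => p a → q a :=
  (hp.not.or hq).of_eq fun a => by tauto

lemma lt' {f g : α → ℕ} (hf : Primrec f) (hg : Primrec g) : PrimrecPred fun a => f a < g a :=
  Primrec.nat_lt.comp hf hg

lemma eq' {f g : α → ℕ} (hf : Primrec f) (hg : Primrec g) : PrimrecPred fun a => f a = g a :=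
  Primrec.eq.comp hf hg

lemma md {f g : α → ℕ} (hf : Primrec f) (hg : Primrec g) : Primrec fun a => f a % g a :=
  Primrec.nat_mod.comp hf hg

lemma ml {f g : α → ℕ} (hf : Primrec f) (hg : Primrec g) : Primrec fun a => f a * g a :=
  Primrec.nat_mul.comp hf hg

lemma sc {f : α → ℕ} (hf : Primrec f) : Primrec fun a => f a + 1 := Primrec.succ.comp hf

lemma ct (n : ℕ) : Primrec fun _ : α => n := Primrec.const n

lemma pr_prim {f : α → ℕ} (hf : Primrec f) : PrimrecPred fun a => Pr (f a) := by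
  unfold Pr
  refine (lt' (ct 1) hf).and (all_lt (p := fun a m => 1 < m → f a % m ≠ 0) hf ?_)
  refine imp (lt' (ct 1) Primrec.snd) ?_
  exact (eq' (md (hf.comp Primrec.fst) Primrec.snd) (ct 0)).not

/-- `b c ^ 2` is a cube modulo the primes dividing `a` -/
def Cub (a b c : ℕ) : Prop :=
  ∀ p < a + 1, Pr p → a % p = 0 → ∃ x < p, (x * x * x) % p = (b * c * c) % p

lemma cub_prim {f g h : α → ℕ} (hf : Primrec f) (hg : Primrec g) (hh : Primrec h) :
    PrimrecPred fun a => Cub (f a) (g a) (h a) := by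
  unfold Cub
  refine all_lt (p := fun a p => Pr p → f a % p = 0 →
    ∃ x < p, (x * x * x) % p = (g a * h a * h a) % p) (sc hf) ?_
  refine imp (pr_prim Primrec.snd) (imp (eq' (md (hf.comp Primrec.fst) Primrec.snd) (ct 0)) ?_)
  refine ex_lt (p := fun (q : α × ℕ) x => (x * x * x) % q.2 = (g q.1 * h q.1 * h q.1) % q.2)
    Primrec.snd ?_
  refine eq' (md (ml (ml Primrec.snd Primrec.snd) Primrec.snd) (Primrec.snd.comp Primrec.fst)) ?_
  have hq : Primrec fun q : (α × ℕ) × ℕ => q.1.1 := Primrec.fst.comp Primrec.fst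
  exact md (ml (ml (hg.comp hq) (hh.comp hq)) (hh.comp hq)) (Primrec.snd.comp Primrec.fst)

/-- no common prime factor -/
def Cop (a b : ℕ) : Prop := ∀ p < a + 1, Pr p → a % p = 0 → b % p ≠ 0

lemma cop_prim {f g : α → ℕ} (hf : Primrec f) (hg : Primrec g) :
    PrimrecPred fun a => Cop (f a) (g a) := by
  unfold Cop
  refine all_lt (p := fun a p => Pr p → f a % p = 0 → g a % p ≠ 0) (sc hf) ?_
  refine imp (pr_prim Primrec.snd) (imp (eq' (md (hf.comp Primrec.fst) Primrec.snd) (ct 0)) ?_)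
  exact (eq' (md (hg.comp Primrec.fst) Primrec.snd) (ct 0)).not

/-- at least two of the numbers are one -/
def Tri (a b c : ℕ) : Prop := (a = 1 ∧ b = 1) ∨ (b = 1 ∧ c = 1) ∨ (c = 1 ∧ a = 1)

lemma tri_prim {f g h : α → ℕ} (hf : Primrec f) (hg : Primrec g) (hh : Primrec h) :
    PrimrecPred fun a => Tri (f a) (g a) (h a) :=
  ((eq' hf (ct 1)).and (eq' hg (ct 1))).or
    (((eq' hg (ct 1)).and (eq' hh (ct 1))).or ((eq' hh (ct 1)).and (eq' hf (ct 1))))

end prim

/-- the class -/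
def TCls (D : ℕ) : Prop := (D ≠ 0 ∧ D % 3 ≠ 0 ∧ ∀ p < D + 1, Pr p → D % (p * p * p) ≠ 0) ∧
  D % 9 ≠ 1 ∧ D % 9 ≠ 8 ∧
  ∃ q < D + 1, Pr q ∧ q % 3 = 2 ∧ D % q = 0 ∧ ∀ p < D + 1, Pr p → D % p = 0 → p ≠ q → p % 3 = 1

/-- no splitting -/
def TNo (D : ℕ) : Prop := ∀ a < D + 1, ∀ b < D + 1, ∀ c < D + 1, a * b * c = D →
  Cop a b → Cop b c → Cop c a → Cub a b c → Cub b c a → Cub c a b → Tri a b c

lemma tcls_prim : PrimrecPred TCls := by
  unfold TCls
  have hid : Primrec fun D : ℕ => D := Primrec.id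
  refine PrimrecPred.and ((eq' hid (ct 0)).not.and ((eq' (md hid (ct 3)) (ct 0)).not.and ?_)) ?_
  · refine all_lt (p := fun D p => Pr p → D % (p * p * p) ≠ 0) (sc hid) ?_
    refine imp (pr_prim Primrec.snd) ?_
    exact (eq' (md Primrec.fst (ml (ml Primrec.snd Primrec.snd) Primrec.snd)) (ct 0)).not
  · refine (eq' (md hid (ct 9)) (ct 1)).not.and ((eq' (md hid (ct 9)) (ct 8)).not.and ?_)
    refine ex_lt (p := fun D q => Pr q ∧ q % 3 = 2 ∧ D % q = 0 ∧
      ∀ p < D + 1, Pr p → D % p = 0 → p ≠ q → p % 3 = 1) (sc hid) ?_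
    refine (pr_prim Primrec.snd).and ((eq' (md Primrec.snd (ct 3)) (ct 2)).and
      ((eq' (md Primrec.fst Primrec.snd) (ct 0)).and ?_))
    refine all_lt (p := fun (z : ℕ × ℕ) p => Pr p → z.1 % p = 0 → p ≠ z.2 → p % 3 = 1)
      (sc Primrec.fst) ?_
    refine imp (pr_prim Primrec.snd) (imp (eq' (md (Primrec.fst.comp Primrec.fst) Primrec.snd) (ct 0))
      (imp (eq' Primrec.snd (Primrec.snd.comp Primrec.fst)).not
        (eq' (md Primrec.snd (ct 3)) (ct 1))))

lemma tno_prim : PrimrecPred TNo := by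
  unfold TNo
  have hid : Primrec fun D : ℕ => D := Primrec.id
  refine all_lt (p := fun D a => ∀ b < D + 1, ∀ c < D + 1, a * b * c = D →
    Cop a b → Cop b c → Cop c a → Cub a b c → Cub b c a → Cub c a b → Tri a b c) (sc hid) ?_
  refine all_lt (p := fun (z : ℕ × ℕ) b => ∀ c < z.1 + 1, z.2 * b * c = z.1 →
    Cop z.2 b → Cop b c → Cop c z.2 → Cub z.2 b c → Cub b c z.2 → Cub c z.2 b → Tri z.2 b c)
    (sc Primrec.fst) ?_
  refine all_lt (p := fun (z : (ℕ × ℕ) × ℕ) c => z.1.2 * z.2 * c = z.1.1 →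
    Cop z.1.2 z.2 → Cop z.2 c → Cop c z.1.2 → Cub z.1.2 z.2 c → Cub z.2 c z.1.2 →
    Cub c z.1.2 z.2 → Tri z.1.2 z.2 c)
    (sc (Primrec.fst.comp Primrec.fst)) ?_
  have hD : Primrec fun q : ((ℕ × ℕ) × ℕ) × ℕ => q.1.1.1 :=
    Primrec.fst.comp (Primrec.fst.comp Primrec.fst)
  have ha : Primrec fun q : ((ℕ × ℕ) × ℕ) × ℕ => q.1.1.2 :=
    Primrec.snd.comp (Primrec.fst.comp Primrec.fst)
  have hb : Primrec fun q : ((ℕ × ℕ) × ℕ) × ℕ => q.1.2 := Primrec.snd.comp Primrec.fst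
  have hc : Primrec fun q : ((ℕ × ℕ) × ℕ) × ℕ => q.2 := Primrec.snd
  exact imp (eq' (ml (ml ha hb) hc) hD) (imp (cop_prim ha hb) (imp (cop_prim hb hc)
    (imp (cop_prim hc ha) (imp (cub_prim ha hb hc) (imp (cub_prim hb hc ha)
      (imp (cub_prim hc ha hb) (tri_prim ha hb hc)))))))

/-- the class, in the usual form -/
def Cls (D : ℕ) : Prop := (D ≠ 0 ∧ ¬ 3 ∣ D ∧ ∀ p : ℕ, p.Prime → ¬ p ^ 3 ∣ D) ∧
  D % 9 ≠ 1 ∧ D % 9 ≠ 8 ∧
  ∃ q : ℕ, q.Prime ∧ q % 3 = 2 ∧ q ∣ D ∧ ∀ p : ℕ, p.Prime → p ∣ D → p ≠ q → p % 3 = 1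

/-- no splitting, in the usual form -/
def NoSplit (D : ℕ) : Prop :=
  ∀ d : ZMod 3 → ℕ, ∏ c, d c = D → (∀ c c', c ≠ c' → Nat.Coprime (d c) (d c')) →
    (∀ (c : ZMod 3) (p : ℕ), p.Prime → p ∣ d c →
      ∃ x : ℤ, (p : ℤ) ∣ (d (c + 1) : ℤ) * (d (c + 2) : ℤ) ^ 2 - x ^ 3) →
    ∃ c, ∀ c', c' ≠ c → d c' = 1

lemma tcls_iff (D : ℕ) : TCls D ↔ Cls D := by
  unfold TCls Cls
  by_cases hD : D = 0
  · simp [hD]
  have hle : ∀ p, p ∣ D → p < D + 1 := fun p hp => Nat.lt_succ_of_le (Nat.le_of_dvd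
    (Nat.pos_of_ne_zero hD) hp)
  refine and_congr (and_congr_right fun _ => and_congr ?_ ?_) (and_congr_right fun _ =>
    and_congr_right fun _ => ?_)
  · rw [Nat.dvd_iff_mod_eq_zero]
  · constructor
    · intro h p hp hd
      have h1 : p ∣ D := (dvd_pow_self p (by norm_num)).trans hd
      refine h p (hle p h1) ((pr_iff p).2 hp) (Nat.mod_eq_zero_of_dvd ?_)
      have e : p * p * p = p ^ 3 := by ring
      rwa [e]
    · intro h p _ hp hm
      refine h p ((pr_iff p).1 hp) ?_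
      have e : p * p * p = p ^ 3 := by ring
      rw [← e]
      exact Nat.dvd_of_mod_eq_zero hm
  · constructor
    · rintro ⟨q, -, h1, h2, h3, h4⟩
      refine ⟨q, (pr_iff q).1 h1, h2, Nat.dvd_of_mod_eq_zero h3, fun p hp hpD hne => ?_⟩
      exact h4 p (hle p hpD) ((pr_iff p).2 hp) (Nat.mod_eq_zero_of_dvd hpD) hne
    · rintro ⟨q, h1, h2, h3, h4⟩
      refine ⟨q, hle q h3, (pr_iff q).2 h1, h2, Nat.mod_eq_zero_of_dvd h3, fun p _ hp hpD hne => ?_⟩
      exact h4 p ((pr_iff p).1 hp) (Nat.dvd_of_mod_eq_zero hpD) hne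

lemma cop_iff {a : ℕ} (ha : a ≠ 0) (b : ℕ) : Cop a b ↔ Nat.Coprime a b := by
  constructor
  · intro h
    by_contra hn
    obtain ⟨p, hp, h1, h2⟩ := Nat.Prime.not_coprime_iff_dvd.1 hn
    exact h p (Nat.lt_succ_of_le (Nat.le_of_dvd (Nat.pos_of_ne_zero ha) h1)) ((pr_iff p).2 hp)
      (Nat.mod_eq_zero_of_dvd h1) (Nat.mod_eq_zero_of_dvd h2)
  · intro h p _ hp h1 h2
    have := Nat.dvd_gcd (Nat.dvd_of_mod_eq_zero h1) (Nat.dvd_of_mod_eq_zero h2)
    rw [h] at this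
    exact ((pr_iff p).1 hp).one_lt.ne' (Nat.dvd_one.1 this)

lemma cub_iff {a : ℕ} (ha : a ≠ 0) (b c : ℕ) : Cub a b c ↔ ∀ p : ℕ, p.Prime → p ∣ a →
    ∃ x : ℤ, (p : ℤ) ∣ (b : ℤ) * (c : ℤ) ^ 2 - x ^ 3 := by
  constructor
  · intro h p hp hpa
    obtain ⟨x, -, hx⟩ := h p (Nat.lt_succ_of_le (Nat.le_of_dvd (Nat.pos_of_ne_zero ha) hpa))
      ((pr_iff p).2 hp) (Nat.mod_eq_zero_of_dvd hpa)
    refine ⟨x, ?_⟩
    have h1 : (x * x * x) ≡ (b * c * c) [MOD p] := hx
    have h2 := (Nat.modEq_iff_dvd.1 h1)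
    push_cast at h2
    have e : (b : ℤ) * (c : ℤ) ^ 2 - (x : ℤ) ^ 3 = b * c * c - x * x * x := by ring
    rwa [e]
  · intro h p _ hp hpa
    have hp' := (pr_iff p).1 hp
    obtain ⟨x, hx⟩ := h p hp' (Nat.dvd_of_mod_eq_zero hpa)
    have hp0 : (0 : ℤ) < p := by exact_mod_cast hp'.pos
    have h0 := Int.emod_nonneg x hp0.ne'
    have h1 := Int.emod_lt_of_pos x hp0
    refine ⟨(x % p).toNat, by omega, ?_⟩
    have h2 : (((x % p).toNat : ℕ) : ℤ) = x % p := Int.toNat_of_nonneg h0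
    have h3 : ((x % p).toNat * (x % p).toNat * (x % p).toNat) ≡ (b * c * c) [MOD p] := by
      rw [Nat.modEq_iff_dvd]
      push_cast
      rw [h2]
      have h4 : (p : ℤ) ∣ x - x % p := Int.dvd_self_sub_emod
      have h5 : (b : ℤ) * c * c - (x % p) * (x % p) * (x % p) =
          (b * c ^ 2 - x ^ 3) + (x - x % p) * (x ^ 2 + x * (x % p) + (x % p) ^ 2) := by ring
      rw [h5]
      exact dvd_add hx (Dvd.dvd.mul_right h4 _)
    exact h3

lemma tno_iff {D : ℕ} (hD : D ≠ 0) : TNo D ↔ NoSplit D := by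
  constructor
  · intro h d hd hc hp
    have e3 : ∏ c, d c = d 0 * d 1 * d 2 := Fin.prod_univ_three d
    have hd' : d 0 * d 1 * d 2 = D := by rw [← e3, hd]
    have h0 : d 0 ≠ 0 := by
      intro h0
      rw [h0, zero_mul, zero_mul] at hd'
      exact hD hd'.symm
    have h1 : d 1 ≠ 0 := by
      intro h0
      rw [h0, mul_zero, zero_mul] at hd'
      exact hD hd'.symm
    have h2 : d 2 ≠ 0 := by
      intro h0
      rw [h0, mul_zero] at hd'
      exact hD hd'.symm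
    have hle : ∀ p, p ∣ D → p < D + 1 := fun p hp => Nat.lt_succ_of_le (Nat.le_of_dvd
      (Nat.pos_of_ne_zero hD) hp)
    have a0 : d 0 ∣ D := ⟨d 1 * d 2, by rw [← hd']; ring⟩
    have a1 : d 1 ∣ D := ⟨d 0 * d 2, by rw [← hd']; ring⟩
    have a2 : d 2 ∣ D := ⟨d 0 * d 1, by rw [← hd']; ring⟩
    have key := h (d 0) (hle _ a0) (d 1) (hle _ a1) (d 2) (hle _ a2) hd'
      ((cop_iff h0 _).2 (hc 0 1 (by decide))) ((cop_iff h1 _).2 (hc 1 2 (by decide)))
      ((cop_iff h2 _).2 (hc 2 0 (by decide)))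
      ((cub_iff h0 _ _).2 (hp 0)) ((cub_iff h1 _ _).2 (hp 1)) ((cub_iff h2 _ _).2 (hp 2))
    rcases key with ⟨k1, k2⟩ | ⟨k1, k2⟩ | ⟨k1, k2⟩
    · refine ⟨2, fun c hc => ?_⟩
      fin_cases c
      · exact k1
      · exact k2
      · exact absurd rfl hc
    · refine ⟨0, fun c hc => ?_⟩
      fin_cases c
      · exact absurd rfl hc
      · exact k1
      · exact k2
    · refine ⟨1, fun c hc => ?_⟩
      fin_cases c
      · exact k2
      · exact absurd rfl hc
      · exact k1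
  · intro h a _ b _ c _ habc g1 g2 g3 g4 g5 g6
    have h0 : a ≠ 0 := by
      rintro rfl
      rw [zero_mul, zero_mul] at habc
      exact hD habc.symm
    have h1 : b ≠ 0 := by
      rintro rfl
      rw [mul_zero, zero_mul] at habc
      exact hD habc.symm
    have h2 : c ≠ 0 := by
      rintro rfl
      rw [mul_zero] at habc
      exact hD habc.symm
    let d : ZMod 3 → ℕ := fun i => if i = 0 then a else if i = 1 then b else c
    have d0 : d 0 = a := rfl
    have d1 : d 1 = b := rfl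
    have d2 : d 2 = c := rfl
    have e3 : ∏ c, d c = d 0 * d 1 * d 2 := Fin.prod_univ_three d
    obtain ⟨i, hi⟩ := h d (by rw [e3, d0, d1, d2, habc]) (by
      intro i j hij
      have c1 := (cop_iff h0 _).1 g1
      have c2 := (cop_iff h1 _).1 g2
      have c3 := (cop_iff h2 _).1 g3
      fin_cases i <;> fin_cases j
      · exact absurd rfl hij
      · exact c1
      · exact c3.symm
      · exact c1.symm
      · exact absurd rfl hij
      · exact c2
      · exact c3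
      · exact c2.symm
      · exact absurd rfl hij) (by
      intro i
      fin_cases i
      · exact (cub_iff h0 _ _).1 g4
      · exact (cub_iff h1 _ _).1 g5
      · exact (cub_iff h2 _ _).1 g6)
    fin_cases i
    · exact Or.inr (Or.inl ⟨hi 1 (show (1 : ZMod 3) ≠ 0 by decide),
        hi 2 (show (2 : ZMod 3) ≠ 0 by decide)⟩)
    · exact Or.inr (Or.inr ⟨hi 2 (show (2 : ZMod 3) ≠ 1 by decide),
        hi 0 (show (0 : ZMod 3) ≠ 1 by decide)⟩)
    · exact Or.inl ⟨hi 0 (show (0 : ZMod 3) ≠ 2 by decide), hi 1 (show (1 : ZMod 3) ≠ 2 by decide)⟩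

/-- **The test is primitive recursive.** -/
theorem test_prim : PrimrecPred fun D : ℕ => Cls D ∧ NoSplit D ∧ D ≠ 2 := by
  have hid : Primrec fun D : ℕ => D := Primrec.id
  refine (tcls_prim.and (tno_prim.and (eq' hid (ct 2)).not)).of_eq fun D => ?_
  rw [tcls_iff]
  refine and_congr_right fun h => ?_
  rw [tno_iff h.1.1]

end Pool.Agent.Q243.CU
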